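import Mathlib

open Filter
open scoped Topology

set_option linter.unusedSectionVars false
set_option linter.unusedVariables false
set_option linter.unusedSimpArgs false

noncomputable section

namespace Pool.Agent.L5helper93.PI

/-- J1: the finite-dimensional inequality. -/
theorem core {m : ℕ} (hm : 1 ≤ m) {r δ : ℝ} (β x z : Fin m → ℝ) (D A : Fin m → Fin m → ℝ)
    (hβ : ∀ i, 0 ≤ β i) (hz : ∀ i, 0 ≤ z i) (hD : ∀ i j, 0 ≤ D i j)
    (hsym : ∀ i j, D i j = D j i) (hA0 : ∀ i, A i i = 0)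
    (hA : ∀ i j, i ≠ j → 6 * A i j ≤ 4 * (x i * x j) + D i j)
    (hscal : 2 * ∑ i, x i ^ 2 + ∑ i, ∑ j, D i j + 2 * ∑ i, z i = 3 * (2 * m + r) * δ) :
    (m : ℝ) * (∑ i, β i ^ 2 * z i + 1 / 3 * ∑ i, ∑ j, D i j * (β i ^ 2 + β j ^ 2)) +
      2 * r * δ * ∑ i, β i ^ 2 ≤
    m * (∑ i, β i ^ 2 * (∑ j, D i j + 4 * ((m : ℝ) - 1) * δ + z i + 2 * r * δ) -
      2 * ∑ i, ∑ j, β i * β j * A i j) := by
  have hm' : (1 : ℝ) ≤ m := by exact_mod_cast hm
  obtain ⟨B, hB⟩ : ∃ B : ℝ, B = ∑ i, β i ^ 2 := ⟨_, rfl⟩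
  obtain ⟨X, hX⟩ : ∃ X : ℝ, X = ∑ i, x i ^ 2 := ⟨_, rfl⟩
  obtain ⟨S, hS⟩ : ∃ S : ℝ, S = ∑ i, ∑ j, D i j * β i ^ 2 := ⟨_, rfl⟩
  obtain ⟨T, hT⟩ : ∃ T : ℝ, T = ∑ i, β i ^ 2 * z i := ⟨_, rfl⟩
  obtain ⟨P, hP⟩ : ∃ P : ℝ, P = (∑ i, β i * x i) ^ 2 := ⟨_, rfl⟩
  obtain ⟨Q, hQ⟩ : ∃ Q : ℝ, Q = ∑ i, (β i * x i) ^ 2 := ⟨_, rfl⟩
  obtain ⟨W, hW⟩ : ∃ W : ℝ, W = ∑ i, ∑ j, β i * β j * A i j := ⟨_, rfl⟩
  have hS' : ∑ i, ∑ j, D i j * β j ^ 2 = S := by
    rw [hS, Finset.sum_comm]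
    refine Finset.sum_congr rfl fun i _ => Finset.sum_congr rfl fun j _ => ?_
    rw [hsym]
  have hSS : ∑ i, ∑ j, D i j * (β i ^ 2 + β j ^ 2) = 2 * S := by
    have : ∑ i, ∑ j, D i j * (β i ^ 2 + β j ^ 2) =
        ∑ i, ∑ j, D i j * β i ^ 2 + ∑ i, ∑ j, D i j * β j ^ 2 := by
      rw [← Finset.sum_add_distrib]
      refine Finset.sum_congr rfl fun i _ => ?_
      rw [← Finset.sum_add_distrib]
      refine Finset.sum_congr rfl fun j _ => ?_
      ring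
    rw [this, hS', ← hS]
    ring
  have hB0 : 0 ≤ B := by
    rw [hB]
    exact Finset.sum_nonneg fun i _ => sq_nonneg _
  -- the expansion of the right side
  have hR : ∑ i, β i ^ 2 * (∑ j, D i j + 4 * ((m : ℝ) - 1) * δ + z i + 2 * r * δ) =
      S + (4 * ((m : ℝ) - 1) * δ + 2 * r * δ) * B + T := by
    rw [hS, hB, hT, Finset.mul_sum, ← Finset.sum_add_distrib, ← Finset.sum_add_distrib]
    refine Finset.sum_congr rfl fun i _ => ?_
    rw [← Finset.sum_mul]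
    ring
  -- (1)
  have h1 : 6 * W ≤ 4 * (P - Q) + S := by
    have e1 : 6 * W = ∑ i, ∑ j, 6 * (β i * β j * A i j) := by
      rw [hW, Finset.mul_sum]
      refine Finset.sum_congr rfl fun i _ => ?_
      rw [Finset.mul_sum]
    have e2 : P = ∑ i, ∑ j, β i * x i * (β j * x j) := by
      rw [hP, sq, Finset.sum_mul_sum]
    have e3 : Q = ∑ i, ∑ j, if i = j then (β i * x i) ^ 2 else 0 := by
      rw [hQ]
      refine Finset.sum_congr rfl fun i _ => ?_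
      simp
    have e4 : S = ∑ i, ∑ j, D i j * ((β i ^ 2 + β j ^ 2) / 2) := by
      have : ∑ i, ∑ j, D i j * ((β i ^ 2 + β j ^ 2) / 2) =
          (∑ i, ∑ j, D i j * (β i ^ 2 + β j ^ 2)) / 2 := by
        rw [Finset.sum_div]
        refine Finset.sum_congr rfl fun i _ => ?_
        rw [Finset.sum_div]
        refine Finset.sum_congr rfl fun j _ => ?_
        ring
      rw [this, hSS]
      ring
    rw [e1, e2, e3, e4, ← Finset.sum_sub_distrib, Finset.mul_sum, ← Finset.sum_add_distrib]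
    refine Finset.sum_le_sum fun i _ => ?_
    rw [← Finset.sum_sub_distrib, Finset.mul_sum, ← Finset.sum_add_distrib]
    refine Finset.sum_le_sum fun j _ => ?_
    by_cases hij : i = j
    · subst hij
      rw [if_pos rfl, hA0]
      have := hD i i
      nlinarith [sq_nonneg (β i), mul_nonneg this (sq_nonneg (β i))]
    · rw [if_neg hij]
      have ha := hA i j hij
      have hb : 0 ≤ β i * β j := mul_nonneg (hβ i) (hβ j)
      have hc : β i * β j * D i j ≤ D i j * ((β i ^ 2 + β j ^ 2) / 2) := by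
        have := hD i j
        nlinarith [mul_nonneg this (sq_nonneg (β i - β j))]
      nlinarith [mul_le_mul_of_nonneg_left ha hb]
  -- (3)
  have h3 : P ≤ m * Q := by
    rw [hP, hQ]
    have := sq_sum_le_card_mul_sum_sq (s := (Finset.univ : Finset (Fin m))) (f := fun i => β i * x i)
    simpa using this
  have h4 : P ≤ B * X := by
    rw [hP, hB, hX]
    exact Finset.sum_mul_sq_le_sq_mul_sq _ _ _
  -- (4)
  have h5 : X ≤ 3 / 2 * (2 * m + r) * δ := by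
    have d1 : 0 ≤ ∑ i, ∑ j, D i j := Finset.sum_nonneg fun i _ => Finset.sum_nonneg fun j _ => hD i j
    have d2 : 0 ≤ ∑ i, z i := Finset.sum_nonneg fun i _ => hz i
    rw [← hX] at hscal
    linarith
  rw [hR, hSS, ← hT, ← hB, ← hW]
  have h6 : (m : ℝ) * (P - Q) ≤ (m - 1) * (B * X) := by
    have : (m : ℝ) * (P - Q) ≤ (m - 1) * P := by linarith
    exact this.trans (mul_le_mul_of_nonneg_left h4 (by linarith))
  have h7 : ((m : ℝ) - 1) * (B * X) ≤ (m - 1) * (B * (3 / 2 * (2 * m + r) * δ)) :=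
    mul_le_mul_of_nonneg_left (mul_le_mul_of_nonneg_left h5 hB0) (by linarith)
  have h8 : (m : ℝ) * (6 * W) ≤ m * (4 * (P - Q) + S) :=
    mul_le_mul_of_nonneg_left h1 (by linarith)
  nlinarith [h6, h7, h8]

end Pool.Agent.L5helper93.PI
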