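import Mathlib
import Pool.Agent.L5helper93.Geo.Weitz
import Pool.Agent.L5helper93.Geo.Pair

/-!
# Harmonic two-forms under scalar-normalised pinching from below: definitions
-/

open Bundle Manifold ContDiff VectorField Filter
open scoped Topology

set_option linter.unusedSectionVars false
set_option linter.unusedVariables false
set_option linter.unusedSimpArgs false

noncomputable section

namespace Pool.Agent.L5helper93.PI

open Pool.Agent.Results.MP_b296c2_gt
open Pool.Agent.Results.MP_b296c2_gt.Riemannian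
open Pool.Agent.L5helper93.Ein Pool.Agent.L5helper93.Geo

/-- The index set of a basis adapted to a two-form. -/
abbrev Ix (m r : ℕ) : Type := (Fin m ⊕ Fin m) ⊕ Fin r

/-- The first vector of the plane `i`. -/
abbrev pP {m r : ℕ} (i : Fin m) : Ix m r := Sum.inl (Sum.inl i)

/-- The second vector of the plane `i`. -/
abbrev pQ {m r : ℕ} (i : Fin m) : Ix m r := Sum.inl (Sum.inr i)

/-- The kernel. -/
abbrev pZ {m r : ℕ} (i : Fin r) : Ix m r := Sum.inr i

/-- The matrix of a two-form in normal form. -/
def Wn {m r : ℕ} (β : Fin m → ℝ) : Ix m r → Ix m r → ℝ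
  | Sum.inl (Sum.inl i), Sum.inl (Sum.inr j) => if i = j then β i else 0
  | Sum.inl (Sum.inr i), Sum.inl (Sum.inl j) => if i = j then - β i else 0
  | _, _ => 0

/-- The sum of the sectional curvatures between two planes. -/
def Sm {m r : ℕ} (A : Ix m r → Ix m r → Ix m r → Ix m r → ℝ) (i j : Fin m) : ℝ :=
  A (pP i) (pP j) (pP i) (pP j) + A (pP i) (pQ j) (pP i) (pQ j) +
    A (pQ i) (pP j) (pQ i) (pP j) + A (pQ i) (pQ j) (pQ i) (pQ j)

/-- The sum of the sectional curvatures between a plane and the kernel. -/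
def Zm {m r : ℕ} (A : Ix m r → Ix m r → Ix m r → Ix m r → ℝ) (i : Fin m) : ℝ :=
  ∑ k, (A (pP i) (pZ k) (pP i) (pZ k) + A (pQ i) (pZ k) (pQ i) (pZ k))

variable {E : Type*} [NormedAddCommGroup E] [NormedSpace ℝ E] [FiniteDimensional ℝ E]
  {H : Type*} [TopologicalSpace H] {I : ModelWithCorners ℝ E H}
  {M : Type*} [TopologicalSpace M] [ChartedSpace H M] [IsManifold I ∞ M]
  [RiemannianBundle (fun x : M => TangentSpace I x)]
  [IsContMDiffRiemannianBundle I ∞ E (fun x : M => TangentSpace I x)]
  [T2Space M] [SigmaCompactSpace M] [Nontrivial E]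
  {cov : CovariantDerivative I E (TangentSpace I : M → Type _)}

end Pool.Agent.L5helper93.PI

end
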