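import Mathlib
import Pool.Agent.L5helper93.PI.Defs

/-!
# The curvature terms of a two-form in normal form
-/

open Bundle Manifold ContDiff VectorField Filter
open scoped Topology

set_option linter.unusedSectionVars false
set_option linter.unusedVariables false
set_option linter.unusedSimpArgs false

noncomputable section

namespace Pool.Agent.L5helper93.PI

open Pool.Agent.Results.MP_b296c2_gt
open Pool.Agent.Results.MP_b296c2_gt.Riemannian
open Pool.Agent.L5helper93.Ein Pool.Agent.L5helper93.Geo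

/-- double sums against the normal form -/
theorem sum_Wn {m r : ℕ} (β : Fin m → ℝ) (f : Ix m r → Ix m r → ℝ) :
    ∑ c, ∑ d, f c d * Wn β c d = ∑ j, β j * (f (pP j) (pQ j) - f (pQ j) (pP j)) := by
  simp only [Fintype.sum_sum_type, Wn, mul_zero, Finset.sum_const_zero, add_zero, zero_add,
    mul_ite, Finset.sum_ite_eq, Finset.mem_univ, if_true]
  rw [← Finset.sum_add_distrib]
  refine Finset.sum_congr rfl fun j _ => ?_
  simp only [pP, pQ]
  ring

theorem Wt_normal {m r : ℕ} {A : Ix m r → Ix m r → Ix m r → Ix m r → ℝ} (h : IsCurv A)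
    (β : Fin m → ℝ) :
    Wt A (Wn β) = 4 * ∑ i, ∑ j, β i * β j * A (pP i) (pQ i) (pP j) (pQ j) := by
  unfold Wt
  have h1 : ∀ a b : Ix m r, ∑ c, ∑ d, A a b c d * (Wn β a b * Wn β c d) =
      (2 * ∑ j, β j * A a b (pP j) (pQ j)) * Wn β a b := by
    intro a b
    have e1 : ∑ c, ∑ d, A a b c d * (Wn β a b * Wn β c d) =
        (∑ c, ∑ d, A a b c d * Wn β c d) * Wn β a b := by
      rw [Finset.sum_mul]
      refine Finset.sum_congr rfl fun c _ => ?_
      rw [Finset.sum_mul]
      exact Finset.sum_congr rfl fun d _ => by ring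
    rw [e1, sum_Wn, Finset.mul_sum]
    congr 1
    refine Finset.sum_congr rfl fun j _ => ?_
    rw [h.a2 a b (pQ j) (pP j)]
    ring
  have h2 : ∑ a, ∑ b, ∑ c, ∑ d, A a b c d * (Wn β a b * Wn β c d) =
      ∑ a, ∑ b, (2 * ∑ j, β j * A a b (pP j) (pQ j)) * Wn β a b :=
    Finset.sum_congr rfl fun a _ => Finset.sum_congr rfl fun b _ => h1 a b
  rw [h2, sum_Wn, Finset.mul_sum]
  refine Finset.sum_congr rfl fun i _ => ?_
  have h3 : ∑ j, β j * A (pQ i) (pP i) (pP j) (pQ j) =
      - ∑ j, β j * A (pP i) (pQ i) (pP j) (pQ j) := by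
    rw [← Finset.sum_neg_distrib]
    refine Finset.sum_congr rfl fun j _ => ?_
    rw [h.a1 (pQ i) (pP i)]
    ring
  rw [h3, Finset.mul_sum, Finset.mul_sum, ← Finset.sum_neg_distrib, Finset.mul_sum,
    ← Finset.sum_sub_distrib, Finset.mul_sum]
  refine Finset.sum_congr rfl fun j _ => ?_
  ring

theorem Pt_normal {m r : ℕ} {A : Ix m r → Ix m r → Ix m r → Ix m r → ℝ} (β : Fin m → ℝ) :
    Pt A (Wn β) = ∑ i, β i ^ 2 * (Rc A (pP i) (pP i) + Rc A (pQ i) (pQ i)) := by
  unfold Pt
  obtain ⟨R, hR⟩ : ∃ R : Ix m r → Ix m r → ℝ, R = Rc A := ⟨_, rfl⟩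
  rw [← hR]
  simp only [Fintype.sum_sum_type, Wn, mul_zero, zero_mul, Finset.sum_const_zero, add_zero,
    zero_add, mul_ite, ite_mul, Finset.sum_ite_eq, Finset.sum_ite_eq', Finset.mem_univ, if_true]
  rw [← Finset.sum_add_distrib]
  refine Finset.sum_congr rfl fun j _ => ?_
  simp only [pP, pQ]
  ring

end Pool.Agent.L5helper93.PI

end
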