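import Mathlib
import Pool.Agent.L5helper93.PI.Core
import Pool.Agent.L5helper93.PI.Normal

/-!
# Harmonic two-forms under scalar-normalised pinching from below: the pointwise inequality
-/

open Bundle Manifold ContDiff VectorField Filter
open scoped Topology

set_option linter.unusedSectionVars false
set_option linter.unusedVariables false
set_option linter.unusedSimpArgs false

noncomputable section

namespace Pool.Agent.L5helper93.PI

open Pool.Agent.Results.MP_b296c2_gt
open Pool.Agent.Results.MP_b296c2_gt.Riemannian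
open Pool.Agent.L5helper93.Ein Pool.Agent.L5helper93.Geo

section AlgMain

variable {m r : ℕ} {A : Ix m r → Ix m r → Ix m r → Ix m r → ℝ}

theorem alg_sum_Ix (f : Ix m r → ℝ) :
    ∑ a, f a = (∑ i, f (pP i) + ∑ i, f (pQ i)) + ∑ k, f (pZ k) := by
  rw [Fintype.sum_sum_type, Fintype.sum_sum_type]

theorem alg_diag (h : IsCurv A) (a c d : Ix m r) : A a a c d = 0 := by
  have := h.a1 a a c d
  linarith

theorem alg_symm (h : IsCurv A) (a b : Ix m r) : A a b a b = A b a b a := by
  rw [h.a1 a b a b, h.a2 b a a b, neg_neg]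

theorem alg_Sm_self (h : IsCurv A) (i : Fin m) :
    Sm A i i = 2 * A (pP i) (pQ i) (pP i) (pQ i) := by
  unfold Sm
  rw [alg_diag h, alg_diag h, alg_symm h (pQ i) (pP i)]
  ring

theorem alg_Sm_symm (h : IsCurv A) (i j : Fin m) : Sm A i j = Sm A j i := by
  unfold Sm
  rw [alg_symm h (pP i) (pP j), alg_symm h (pP i) (pQ j), alg_symm h (pQ i) (pP j),
    alg_symm h (pQ i) (pQ j)]
  ring

theorem alg_Rc (i : Fin m) :
    Rc A (pP i) (pP i) + Rc A (pQ i) (pQ i) = ∑ j, Sm A i j + Zm A i := by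
  unfold Rc Sm Zm
  rw [alg_sum_Ix, alg_sum_Ix]
  simp only [Finset.sum_add_distrib]
  ring

/-- The scalar curvature in normal form. -/
theorem alg_scal (h : IsCurv A) (hr : r ≤ 1) :
    ∑ a, ∑ b, A a b a b = ∑ i, ∑ j, Sm A i j + 2 * ∑ i, Zm A i := by
  have hz : ∀ k l : Fin r, A (pZ k) (pZ l) (pZ k) (pZ l) = 0 := by
    intro k l
    have : k = l := by
      apply Fin.ext
      omega
    subst this
    exact alg_diag h _ _ _
  rw [alg_sum_Ix]
  simp only [alg_sum_Ix, hz, Finset.sum_const_zero, add_zero]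
  unfold Sm Zm
  simp only [Finset.sum_add_distrib]
  have e1 : ∑ k : Fin r, ∑ i : Fin m, A (pZ k) (pP i) (pZ k) (pP i) =
      ∑ i : Fin m, ∑ k : Fin r, A (pP i) (pZ k) (pP i) (pZ k) := by
    rw [Finset.sum_comm]
    exact Finset.sum_congr rfl fun i _ => Finset.sum_congr rfl fun k _ => alg_symm h _ _
  have e2 : ∑ k : Fin r, ∑ i : Fin m, A (pZ k) (pQ i) (pZ k) (pQ i) =
      ∑ i : Fin m, ∑ k : Fin r, A (pQ i) (pZ k) (pQ i) (pZ k) := by
    rw [Finset.sum_comm]
    exact Finset.sum_congr rfl fun i _ => Finset.sum_congr rfl fun k _ => alg_symm h _ _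
  rw [e1, e2]
  ring

/-- The sum over the second index of the off-diagonal terms. -/
theorem alg_off (g : Fin m → Fin m → ℝ) (i : Fin m) :
    ∑ j, (if i = j then 0 else g i j) = ∑ j, g i j - g i i := by
  have e : ∀ j, (if i = j then 0 else g i j) = g i j - (if i = j then g i j else 0) := by
    intro j
    split_ifs <;> ring
  rw [Finset.sum_congr rfl fun j _ => e j, Finset.sum_sub_distrib, Finset.sum_ite_eq]
  simp

end AlgMain

/-- J4: the pointwise inequality. -/
theorem alg_main {m r : ℕ} (hm : 1 ≤ m) (hr : r ≤ 1)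
    {A : Ix m r → Ix m r → Ix m r → Ix m r → ℝ} (h : IsCurv A) {δ : ℝ} {β : Fin m → ℝ}
    (hβ : ∀ i, 0 ≤ β i) (hK : ∀ a b, a ≠ b → δ ≤ A a b a b)
    (hpair : ∀ i j, i ≠ j → 6 * A (pP i) (pQ i) (pP j) (pQ j) ≤
      4 * (Real.sqrt (A (pP i) (pQ i) (pP i) (pQ i) - δ) *
        Real.sqrt (A (pP j) (pQ j) (pP j) (pQ j) - δ)) + (Sm A i j - 4 * δ))
    (hscal : ∑ a, ∑ b, A a b a b = (2 * m + r : ℝ) * (2 * m + r + 2) * δ) :
    0 ≤ 2 * Pt A (Wn β) - Wt A (Wn β) ∧
    ((∀ a b, a ≠ b → δ < A a b a b) → 3 ≤ 2 * m + r →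
      2 * Pt A (Wn β) - Wt A (Wn β) = 0 → ∀ i, β i = 0) := by
  have hmR : (1 : ℝ) ≤ m := by exact_mod_cast hm
  have hrr : (r : ℝ) * r = r := by
    rcases Nat.le_one_iff_eq_zero_or_eq_one.mp hr with h0 | h1
    · subst h0; simp
    · subst h1; simp
  have hr0 : (0 : ℝ) ≤ r := Nat.cast_nonneg r
  -- the data of the finite-dimensional inequality
  set K : Fin m → ℝ := fun i => A (pP i) (pQ i) (pP i) (pQ i) with hKd
  set x : Fin m → ℝ := fun i => Real.sqrt (K i - δ) with hxd
  set z : Fin m → ℝ := fun i => Zm A i - 2 * r * δ with hzd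
  set D : Fin m → Fin m → ℝ := fun i j => if i = j then 0 else Sm A i j - 4 * δ with hDd
  set B : Fin m → Fin m → ℝ := fun i j => if i = j then 0 else A (pP i) (pQ i) (pP j) (pQ j)
    with hBd
  have hneP : ∀ i j : Fin m, i ≠ j → (pP i : Ix m r) ≠ pP j := by
    intro i j hij hc
    exact hij (by simpa using hc)
  have hneQ : ∀ i j : Fin m, i ≠ j → (pQ i : Ix m r) ≠ pQ j := by
    intro i j hij hc
    exact hij (by simpa using hc)
  have hnePQ : ∀ i j : Fin m, (pP i : Ix m r) ≠ pQ j := by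
    intro i j hc
    simp at hc
  have hneQP : ∀ i j : Fin m, (pQ i : Ix m r) ≠ pP j := by
    intro i j hc
    simp at hc
  have hnePZ : ∀ (i : Fin m) (k : Fin r), (pP i : Ix m r) ≠ pZ k := by
    intro i j hc
    simp at hc
  have hneQZ : ∀ (i : Fin m) (k : Fin r), (pQ i : Ix m r) ≠ pZ k := by
    intro i j hc
    simp at hc
  have hx2 : ∀ i, x i ^ 2 = K i - δ := by
    intro i
    exact Real.sq_sqrt (sub_nonneg.mpr (hK _ _ (hnePQ i i)))
  have hz : ∀ i, 0 ≤ z i := by
    intro i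
    have : ∑ _k : Fin r, (2 * δ) ≤ Zm A i := by
      unfold Zm
      refine Finset.sum_le_sum fun k _ => ?_
      linarith [hK _ _ (hnePZ i k), hK _ _ (hneQZ i k)]
    rw [Finset.sum_const, Finset.card_univ, Fintype.card_fin, nsmul_eq_mul] at this
    simp only [hzd]
    linarith
  have hD : ∀ i j, 0 ≤ D i j := by
    intro i j
    simp only [hDd]
    split_ifs with hij
    · exact le_refl _
    · unfold Sm
      linarith [hK _ _ (hneP i j hij), hK _ _ (hneQ i j hij), hK _ _ (hnePQ i j),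
        hK _ _ (hneQP i j)]
  have hsym : ∀ i j, D i j = D j i := by
    intro i j
    simp only [hDd]
    rw [alg_Sm_symm h i j]
    by_cases hij : i = j
    · subst hij; rfl
    · rw [if_neg hij, if_neg (Ne.symm hij)]
  have hB0 : ∀ i, B i i = 0 := by
    intro i
    simp only [hBd, if_true]
  have hB : ∀ i j, i ≠ j → 6 * B i j ≤ 4 * (x i * x j) + D i j := by
    intro i j hij
    simp only [hBd, hDd, if_neg hij]
    exact hpair i j hij
  have hDs : ∀ i, ∑ j, D i j = ∑ j, Sm A i j - 2 * K i - 4 * ((m : ℝ) - 1) * δ := by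
    intro i
    have e := alg_off (fun i j => Sm A i j - 4 * δ) i
    simp only [hDd]
    rw [e, alg_Sm_self h, Finset.sum_sub_distrib, Finset.sum_const, Finset.card_univ,
      Fintype.card_fin, nsmul_eq_mul]
    simp only [hKd]
    ring
  have hBs : ∀ i, ∑ j, β i * β j * B i j =
      ∑ j, β i * β j * A (pP i) (pQ i) (pP j) (pQ j) - β i ^ 2 * K i := by
    intro i
    have e := alg_off (fun i j => β i * β j * A (pP i) (pQ i) (pP j) (pQ j)) i
    rw [show β i ^ 2 * K i = β i * β i * A (pP i) (pQ i) (pP i) (pQ i) by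
      simp only [hKd]; ring, ← e]
    refine Finset.sum_congr rfl fun j _ => ?_
    simp only [hBd]
    split_ifs <;> ring
  have hsc : 2 * ∑ i, x i ^ 2 + ∑ i, ∑ j, D i j + 2 * ∑ i, z i = 3 * (2 * m + (r : ℝ)) * δ := by
    rw [alg_scal h hr] at hscal
    simp only [hx2, hDs]
    simp only [hzd, Finset.sum_sub_distrib, Finset.sum_const, Finset.card_univ, Fintype.card_fin,
      nsmul_eq_mul, ← Finset.mul_sum]
    linear_combination hscal + δ * hrr
  have key := core hm (r := (r : ℝ)) (δ := δ) β x z D B hβ hz hD hsym hB0 hB hsc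
  have hW : ∑ i, β i ^ 2 * (∑ j, D i j + 4 * ((m : ℝ) - 1) * δ + z i + 2 * r * δ) -
      2 * ∑ i, ∑ j, β i * β j * B i j = (2 * Pt A (Wn β) - Wt A (Wn β)) / 2 := by
    rw [Wt_normal h, Pt_normal]
    simp only [hBs, alg_Rc, hDs, hzd, Finset.sum_sub_distrib]
    have e1 : ∀ i, β i ^ 2 * (∑ j, Sm A i j - 2 * K i - 4 * ((m : ℝ) - 1) * δ +
        4 * ((m : ℝ) - 1) * δ + (Zm A i - 2 * r * δ) + 2 * r * δ) =
        β i ^ 2 * (∑ j, Sm A i j + Zm A i) - 2 * (β i ^ 2 * K i) := by
      intro i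
      ring
    rw [Finset.sum_congr rfl fun i _ => e1 i, Finset.sum_sub_distrib, ← Finset.mul_sum]
    ring
  rw [hW] at key
  have hS : 0 ≤ ∑ i, β i ^ 2 := Finset.sum_nonneg fun i _ => sq_nonneg _
  have hT1 : 0 ≤ ∑ i, β i ^ 2 * z i :=
    Finset.sum_nonneg fun i _ => mul_nonneg (sq_nonneg _) (hz i)
  have hT2 : 0 ≤ ∑ i, ∑ j, D i j * (β i ^ 2 + β j ^ 2) :=
    Finset.sum_nonneg fun i _ => Finset.sum_nonneg fun j _ =>
      mul_nonneg (hD i j) (add_nonneg (sq_nonneg _) (sq_nonneg _))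
  have hx0 : 0 ≤ ∑ i, x i ^ 2 := Finset.sum_nonneg fun i _ => sq_nonneg _
  have hD0 : 0 ≤ ∑ i, ∑ j, D i j :=
    Finset.sum_nonneg fun i _ => Finset.sum_nonneg fun j _ => hD i j
  have hz0 : 0 ≤ ∑ i, z i := Finset.sum_nonneg fun i _ => hz i
  have hn0 : (0 : ℝ) < 3 * (2 * m + (r : ℝ)) := by linarith
  have hδ : 0 ≤ δ := by
    by_contra hc
    have : 3 * (2 * m + (r : ℝ)) * δ < 0 := mul_neg_of_pos_of_neg hn0 (not_le.mp hc)
    linarith
  have hlow : 0 ≤ (m : ℝ) * (∑ i, β i ^ 2 * z i +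
      1 / 3 * ∑ i, ∑ j, D i j * (β i ^ 2 + β j ^ 2)) :=
    mul_nonneg (by linarith) (by linarith)
  have hlow2 : 0 ≤ 2 * r * δ * ∑ i, β i ^ 2 :=
    mul_nonneg (mul_nonneg (by linarith) hδ) hS
  refine ⟨?_, ?_⟩
  · by_contra hc
    have : (m : ℝ) * ((2 * Pt A (Wn β) - Wt A (Wn β)) / 2) < 0 :=
      mul_neg_of_pos_of_neg (by linarith) (by linarith [not_le.mp hc])
    linarith
  · intro hstr hn hzero
    rw [hzero, zero_div, mul_zero] at key
    have hxp : ∀ i, 0 < x i ^ 2 := by
      intro i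
      rw [hx2]
      exact sub_pos.mpr (hstr _ _ (hnePQ i i))
    have hx1 : 0 < ∑ i, x i ^ 2 :=
      Finset.sum_pos (fun i _ => hxp i) ⟨⟨0, by omega⟩, Finset.mem_univ _⟩
    have hδ1 : 0 < δ := by
      by_contra hc
      have : 3 * (2 * m + (r : ℝ)) * δ ≤ 0 :=
        mul_nonpos_of_nonneg_of_nonpos hn0.le (not_lt.mp hc)
      linarith
    rcases Nat.le_one_iff_eq_zero_or_eq_one.mp hr with h0 | h1
    · -- no kernel: two planes
      have hm2 : 2 ≤ m := by omega
      have hsum : ∑ i, ∑ j, D i j * (β i ^ 2 + β j ^ 2) = 0 := by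
        apply le_antisymm _ hT2
        by_contra hc
        have h3 : 0 < (m : ℝ) * (∑ i, β i ^ 2 * z i +
            1 / 3 * ∑ i, ∑ j, D i j * (β i ^ 2 + β j ^ 2)) :=
          mul_pos (by linarith) (by linarith [not_le.mp hc])
        linarith
      intro i
      obtain ⟨j, hj⟩ : ∃ j : Fin m, i ≠ j := by
        by_cases h5 : i = ⟨0, by omega⟩
        · refine ⟨⟨1, by omega⟩, ?_⟩
          rw [h5]
          intro hc
          have := congrArg Fin.val hc
          simp at this
        · exact ⟨_, h5⟩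
      have h6 := (Finset.sum_eq_zero_iff_of_nonneg (fun i _ => Finset.sum_nonneg fun j _ =>
        mul_nonneg (hD i j) (add_nonneg (sq_nonneg (β i)) (sq_nonneg (β j))))).mp hsum i
        (Finset.mem_univ _)
      have h7 := (Finset.sum_eq_zero_iff_of_nonneg (fun j _ =>
        mul_nonneg (hD i j) (add_nonneg (sq_nonneg (β i)) (sq_nonneg (β j))))).mp h6 j
        (Finset.mem_univ _)
      have h8 : 0 < D i j := by
        simp only [hDd, if_neg hj]
        unfold Sm
        linarith [hstr _ _ (hneP i j hj), hstr _ _ (hneQ i j hj), hstr _ _ (hnePQ i j),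
          hstr _ _ (hneQP i j)]
      have h9 : β i ^ 2 + β j ^ 2 = 0 := by
        rcases mul_eq_zero.mp h7 with h10 | h10
        · exact absurd h10 h8.ne'
        · exact h10
      have h11 : β i ^ 2 = 0 := by linarith [sq_nonneg (β i), sq_nonneg (β j)]
      exact pow_eq_zero_iff two_ne_zero |>.mp h11
    · -- one-dimensional kernel
      have hr1 : (r : ℝ) = 1 := by exact_mod_cast h1
      have hsum : ∑ i, β i ^ 2 = 0 := by
        apply le_antisymm _ hS
        by_contra hc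
        have h3 : 0 < 2 * r * δ * ∑ i, β i ^ 2 := by
          rw [hr1]
          exact mul_pos (by linarith) (not_le.mp hc)
        linarith
      intro i
      have h6 := (Finset.sum_eq_zero_iff_of_nonneg (fun i _ => sq_nonneg (β i))).mp hsum i
        (Finset.mem_univ _)
      exact pow_eq_zero_iff two_ne_zero |>.mp h6

end Pool.Agent.L5helper93.PI

end
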