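import Mathlib
import Pool.Agent.L5helper93.PI.Defs

/-!
# An adapted frame with the normal form of a two-form
-/

open Bundle Manifold ContDiff VectorField Filter
open scoped Topology

set_option linter.unusedSectionVars false
set_option linter.unusedVariables false
set_option linter.unusedSimpArgs false

noncomputable section

namespace Pool.Agent.L5helper93.PI

open Pool.Agent.Results.MP_b296c2_gt
open Pool.Agent.Results.MP_b296c2_gt.Riemannian
open Pool.Agent.L5helper93.Ein Pool.Agent.L5helper93.Geo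

theorem Pt_reindex {ι κ : Type} [Fintype ι] [DecidableEq ι] [Fintype κ] [DecidableEq κ]
    (ε : κ ≃ ι) (A : ι → ι → ι → ι → ℝ) (w : ι → ι → ℝ) :
    Pt (fun a b c d => A (ε a) (ε b) (ε c) (ε d)) (fun a b => w (ε a) (ε b)) = Pt A w := by
  unfold Pt Rc
  rw [← Equiv.sum_comp ε (fun a => ∑ b, (∑ i, A a i b i) * ∑ c, w a c * w b c)]
  refine Finset.sum_congr rfl fun a _ => ?_
  rw [← Equiv.sum_comp ε (fun b => (∑ i, A (ε a) i b i) * ∑ c, w (ε a) c * w b c)]
  refine Finset.sum_congr rfl fun b _ => ?_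
  rw [← Equiv.sum_comp ε (fun i => A (ε a) i (ε b) i),
    ← Equiv.sum_comp ε (fun c => w (ε a) c * w (ε b) c)]

theorem Wt_reindex {ι κ : Type} [Fintype ι] [DecidableEq ι] [Fintype κ] [DecidableEq κ]
    (ε : κ ≃ ι) (A : ι → ι → ι → ι → ℝ) (w : ι → ι → ℝ) :
    Wt (fun a b c d => A (ε a) (ε b) (ε c) (ε d)) (fun a b => w (ε a) (ε b)) = Wt A w := by
  unfold Wt
  rw [← Equiv.sum_comp ε (fun a => ∑ b, ∑ c, ∑ d, A a b c d * (w a b * w c d))]
  refine Finset.sum_congr rfl fun a _ => ?_
  rw [← Equiv.sum_comp ε (fun b => ∑ c, ∑ d, A (ε a) b c d * (w (ε a) b * w c d))]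
  refine Finset.sum_congr rfl fun b _ => ?_
  rw [← Equiv.sum_comp ε (fun c => ∑ d, A (ε a) (ε b) c d * (w (ε a) (ε b) * w c d))]
  refine Finset.sum_congr rfl fun c _ => ?_
  rw [← Equiv.sum_comp ε (fun d => A (ε a) (ε b) (ε c) d * (w (ε a) (ε b) * w (ε c) d))]

variable {E : Type*} [NormedAddCommGroup E] [NormedSpace ℝ E] [FiniteDimensional ℝ E]
  {H : Type*} [TopologicalSpace H] {I : ModelWithCorners ℝ E H}
  {M : Type*} [TopologicalSpace M] [ChartedSpace H M] [IsManifold I ∞ M]
  [RiemannianBundle (fun x : M => TangentSpace I x)]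
  [IsContMDiffRiemannianBundle I ∞ E (fun x : M => TangentSpace I x)]
  [T2Space M] [SigmaCompactSpace M] [Nontrivial E]
  {cov : CovariantDerivative I E (TangentSpace I : M → Type _)}

/-- J6: an adapted frame in which the two-form has the normal form, in any dimension. -/
theorem exists_normal (h : IsLeviCivita cov) {n : ℕ} (hn : Module.finrank ℝ E = n)
    {θ : BilField I M} (hθ : IsForm θ) (z : M) :
    ∃ (m r : ℕ) (β : Fin m → ℝ) (v : Ix m r → TangentSpace I z) (ε : Ix m r ≃ Fin n)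
      (b : OrthonormalBasis (Fin n) ℝ (TangentSpace I z))
      (e : Fin n → Π x : M, TangentSpace I x), r ≤ 1 ∧ 2 * m + r = n ∧ (∀ i, 0 ≤ β i) ∧
      (∀ a c, inner ℝ (v a) (v c) = if a = c then (1 : ℝ) else 0) ∧
      (∀ a c, θ z (v a) (v c) = Wn β a c) ∧ Adapted cov z e ∧ (∀ i, e i z = b i) ∧
      (∀ a, b (ε a) = v a) := by
  have hfd : FiniteDimensional ℝ (TangentSpace I z) := inferInstanceAs (FiniteDimensional ℝ E)
  have hBs : ∀ (u v : TangentSpace I z), inner ℝ (Bt hn θ z u) v =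
      (- inner ℝ u (Bt hn θ z v) : ℝ) := by
    intro u v
    rw [Bt_inner, real_inner_comm, Bt_inner]
    exact hθ.skew z u v
  have hn' : Module.finrank ℝ (TangentSpace I z) = n := hn
  obtain ⟨m, r, x, y, w, β, hr, hm, nf⟩ := exists_nf n (TangentSpace I z) (Bt hn θ z) hn' hBs
  have yx : ∀ i j, inner ℝ (y i) (x j) = (0 : ℝ) := fun i j => by
    rw [real_inner_comm]; exact nf.xy j i
  have zx : ∀ i j, inner ℝ (w i) (x j) = (0 : ℝ) := fun i j => by
    rw [real_inner_comm]; exact nf.xz j i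
  have zy : ∀ i j, inner ℝ (w i) (y j) = (0 : ℝ) := fun i j => by
    rw [real_inner_comm]; exact nf.yz j i
  let v : Ix m r → TangentSpace I z := Sum.elim (Sum.elim x y) w
  have hv : ∀ a c, inner ℝ (v a) (v c) = if a = c then (1 : ℝ) else 0 := by
    rintro ((i | i) | i) ((j | j) | j)
    · show inner ℝ (x i) (x j) = _
      rw [nf.xx]
      simp
    · show inner ℝ (x i) (y j) = _
      rw [nf.xy, if_neg (by simp)]
    · show inner ℝ (x i) (w j) = _
      rw [nf.xz, if_neg (by simp)]
    · show inner ℝ (y i) (x j) = _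
      rw [yx, if_neg (by simp)]
    · show inner ℝ (y i) (y j) = _
      rw [nf.yy]
      simp
    · show inner ℝ (y i) (w j) = _
      rw [nf.yz, if_neg (by simp)]
    · show inner ℝ (w i) (x j) = _
      rw [zx, if_neg (by simp)]
    · show inner ℝ (w i) (y j) = _
      rw [zy, if_neg (by simp)]
    · show inner ℝ (w i) (w j) = _
      rw [nf.zz]
      simp
  have hc : Fintype.card (Ix m r) = Fintype.card (Fin n) := by
    simp only [Fintype.card_sum, Fintype.card_fin]
    omega
  let ε : Ix m r ≃ Fin n := Fintype.equivOfCardEq hc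
  obtain ⟨b, hb⟩ := exists_onb hn z (fun i => v (ε.symm i)) (by
    intro i j
    rw [hv]
    simp)
  obtain ⟨e, he, heb⟩ := frame_through h z b
  refine ⟨m, r, β, v, ε, b, e, hr, hm, nf.nn, hv, ?_, he, heb, fun a => by
    rw [hb, ε.symm_apply_apply]⟩
  rintro ((i | i) | i) ((j | j) | j)
  · show θ z (x i) (x j) = 0
    rw [← Bt_inner hn θ z, nf.Bx, real_inner_smul_left, yx, mul_zero]
  · show θ z (x i) (y j) = if i = j then β i else 0
    rw [← Bt_inner hn θ z, nf.Bx, real_inner_smul_left, nf.yy]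
    simp
  · show θ z (x i) (w j) = 0
    rw [← Bt_inner hn θ z, nf.Bx, real_inner_smul_left, nf.yz, mul_zero]
  · show θ z (y i) (x j) = if i = j then - β i else 0
    rw [← Bt_inner hn θ z, nf.By, real_inner_smul_left, nf.xx]
    simp
  · show θ z (y i) (y j) = 0
    rw [← Bt_inner hn θ z, nf.By, real_inner_smul_left, nf.xy, mul_zero]
  · show θ z (y i) (w j) = 0
    rw [← Bt_inner hn θ z, nf.By, real_inner_smul_left, nf.xz, mul_zero]
  · show θ z (w i) (x j) = 0
    rw [← Bt_inner hn θ z, nf.Bz, inner_zero_left]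
  · show θ z (w i) (y j) = 0
    rw [← Bt_inner hn θ z, nf.Bz, inner_zero_left]
  · show θ z (w i) (w j) = 0
    rw [← Bt_inner hn θ z, nf.Bz, inner_zero_left]

/-- J7: the Weitzenboeck term in the indices of the normal form. -/
theorem Wz_reindex (R : CurvField I M) (θ : BilField I M) (z : M) {n m r : ℕ}
    (e : Fin n → Π x : M, TangentSpace I x) (ε : Ix m r ≃ Fin n) :
    Wz R θ z e = 2 * Pt (fun a b c d => Af R z e (ε a) (ε b) (ε c) (ε d))
        (fun a b => wf θ z e (ε a) (ε b)) -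
      Wt (fun a b c d => Af R z e (ε a) (ε b) (ε c) (ε d))
        (fun a b => wf θ z e (ε a) (ε b)) := by
  unfold Wz
  rw [Pt_reindex ε (Af R z e) (wf θ z e), Wt_reindex ε (Af R z e) (wf θ z e)]

end Pool.Agent.L5helper93.PI

end
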