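import Mathlib
import Pool.Agent.L5helper93.PI.Defs

/-!
# The pair inequality for sectional curvatures bounded below
-/

open Bundle Manifold ContDiff VectorField Filter
open scoped Topology

set_option linter.unusedSectionVars false
set_option linter.unusedVariables false
set_option linter.unusedSimpArgs false

noncomputable section

namespace Pool.Agent.L5helper93.PI

open Pool.Agent.Results.MP_b296c2_gt
open Pool.Agent.Results.MP_b296c2_gt.Riemannian
open Pool.Agent.L5helper93.Ein Pool.Agent.L5helper93.Geo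

/-- J5: elimination of the parameters. -/
theorem pair_sqrt {A D k l : ℝ} (hk : 0 ≤ k) (hl : 0 ≤ l)
    (h : ∀ p q : ℝ, 6 * (p ^ 2 * q ^ 2) * A ≤ 2 * p ^ 4 * k + 2 * q ^ 4 * l + p ^ 2 * q ^ 2 * D) :
    6 * A ≤ 4 * (Real.sqrt k * Real.sqrt l) + D := by
  have hs : 0 ≤ Real.sqrt k * Real.sqrt l := mul_nonneg (Real.sqrt_nonneg _) (Real.sqrt_nonneg _)
  by_contra hcon
  push Not at hcon
  have ht : 0 ≤ 6 * A - D := by linarith
  have hq : ∀ x : ℝ, 0 ≤ (2 * k) * (x * x) + (-(6 * A - D)) * x + 2 * l := by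
    intro x
    rcases le_or_gt 0 x with hx | hx
    · have h1 := h (Real.sqrt x) 1
      have h2 : Real.sqrt x ^ 2 = x := Real.sq_sqrt hx
      have h3 : Real.sqrt x ^ 4 = x ^ 2 := by
        rw [show (4 : ℕ) = 2 * 2 from rfl, pow_mul, h2]
      rw [h2, h3] at h1
      nlinarith
    · have h1 : 0 ≤ k * (x * x) := mul_nonneg hk (mul_self_nonneg x)
      nlinarith
  have hd := discrim_le_zero hq
  unfold discrim at hd
  have e1 : (Real.sqrt k * Real.sqrt l) ^ 2 = k * l := by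
    rw [mul_pow, Real.sq_sqrt hk, Real.sq_sqrt hl]
  nlinarith

theorem J5_hom {V : Type*} [NormedAddCommGroup V] [InnerProductSpace ℝ V]
    {R : V →ₗ[ℝ] V →ₗ[ℝ] V →ₗ[ℝ] V} {k : ℝ}
    (hsec : ∀ u v : V, inner ℝ u u = (1 : ℝ) → inner ℝ v v = (1 : ℝ) → inner ℝ u v = (0 : ℝ) →
      inner ℝ (R u v v) u ≤ k) (u v : V) (huv : inner ℝ u v = (0 : ℝ)) :
    inner ℝ (R u v v) u ≤ k * (inner ℝ u u * inner ℝ v v) := by
  by_cases hu : u = 0
  · subst hu; simp
  by_cases hv : v = 0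
  · subst hv; simp
  have h1 : 0 < ‖u‖ := norm_pos_iff.2 hu
  have h2 : 0 < ‖v‖ := norm_pos_iff.2 hv
  have h3 := hsec (‖u‖⁻¹ • u) (‖v‖⁻¹ • v)
    (by rw [real_inner_smul_left, real_inner_smul_right, real_inner_self_eq_norm_sq]
        field_simp)
    (by rw [real_inner_smul_left, real_inner_smul_right, real_inner_self_eq_norm_sq]
        field_simp)
    (by rw [real_inner_smul_left, real_inner_smul_right, huv]; ring)
  simp only [map_smul, LinearMap.smul_apply, real_inner_smul_left, real_inner_smul_right] at h3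
  rw [real_inner_self_eq_norm_sq, real_inner_self_eq_norm_sq]
  have h4 : ‖u‖ ^ 2 * ‖v‖ ^ 2 * (‖u‖⁻¹ * (‖v‖⁻¹ * (‖v‖⁻¹ * (‖u‖⁻¹ *
      inner ℝ (R u v v) u)))) = inner ℝ (R u v v) u := by
    field_simp
  have h5 : 0 < ‖u‖ ^ 2 * ‖v‖ ^ 2 := by positivity
  have h6 := mul_le_mul_of_nonneg_left h3 h5.le
  nlinarith

/-- J5: the pair inequality for sectional curvatures bounded below. -/
theorem pair_lower {V : Type*} [NormedAddCommGroup V] [InnerProductSpace ℝ V]
    {R : V →ₗ[ℝ] V →ₗ[ℝ] V →ₗ[ℝ] V} (h : Pointwise.IsCurvatureTensor R) {k : ℝ}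
    (hsec : ∀ u v : V, inner ℝ u u = (1 : ℝ) → inner ℝ v v = (1 : ℝ) → inner ℝ u v = (0 : ℝ) →
      k ≤ inner ℝ (R u v v) u)
    {a b c d : V} (haa : inner ℝ a a = (1 : ℝ)) (hbb : inner ℝ b b = (1 : ℝ))
    (hcc : inner ℝ c c = (1 : ℝ)) (hdd : inner ℝ d d = (1 : ℝ)) (hab : inner ℝ a b = (0 : ℝ))
    (hac : inner ℝ a c = (0 : ℝ)) (had : inner ℝ a d = (0 : ℝ)) (hbc : inner ℝ b c = (0 : ℝ))
    (hbd : inner ℝ b d = (0 : ℝ)) (hcd : inner ℝ c d = (0 : ℝ)) (p q : ℝ) :
    6 * (p ^ 2 * q ^ 2) * inner ℝ (R a b d) c ≤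
      2 * p ^ 4 * (inner ℝ (R a b b) a - k) + 2 * q ^ 4 * (inner ℝ (R c d d) c - k) +
      p ^ 2 * q ^ 2 * ((inner ℝ (R a c c) a + inner ℝ (R a d d) a + inner ℝ (R b c c) b +
        inner ℝ (R b d d) b) - 4 * k) := by
  have hct : Pointwise.IsCurvatureTensor (-R) := by
    refine ⟨fun X Y Z => ?_, fun X Y Z W => ?_, fun X Y Z => ?_⟩
    · simp only [LinearMap.neg_apply, neg_neg]
      rw [h.antisymm X Y Z, neg_neg]
    · simp only [LinearMap.neg_apply, inner_neg_left, inner_neg_right, neg_neg]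
      rw [h.skew, neg_neg]
    · simp only [LinearMap.neg_apply]
      rw [← neg_add, ← neg_add, h.bianchi, neg_zero]
  have hs : ∀ u v : V, inner ℝ u v = (0 : ℝ) →
      inner ℝ ((-R) u v v) u ≤ -k * (inner ℝ u u * inner ℝ v v) := by
    intro u v huv
    refine J5_hom (R := -R) (k := -k) (fun u v hu hv huv => ?_) u v huv
    simp only [LinearMap.neg_apply, inner_neg_left]
    linarith [hsec u v hu hv huv]
  have hdc : inner ℝ d c = (0 : ℝ) := by rw [real_inner_comm]; exact hcd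
  have key := pair_upper hct hs haa hbb hdd hcc hab had hac hbd hbc hdc p q
  simp only [LinearMap.neg_apply, inner_neg_left] at key
  have e1 : inner ℝ (R a b c) d = (- inner ℝ (R a b d) c : ℝ) := by
    rw [h.skew, real_inner_comm]
  have e2 : inner ℝ (R d c c) d = (inner ℝ (R c d d) c : ℝ) := h.pair d c c d
  have e3 : inner ℝ (R d b b) d = (inner ℝ (R b d d) b : ℝ) := h.pair d b b d
  rw [e1, e2, e3] at key
  nlinarith [key]

end Pool.Agent.L5helper93.PI

end
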