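import Mathlib
import Pool.Agent.L5helper93.PI.Alg
import Pool.Agent.L5helper93.PI.Lower
import Pool.Agent.L5helper93.PI.Frame

/-!
# Harmonic two-forms under scalar-normalised pinching from below: the main theorem
-/

open Bundle Manifold ContDiff VectorField Filter
open scoped Topology

set_option linter.unusedSectionVars false
set_option linter.unusedVariables false
set_option linter.unusedSimpArgs false

noncomputable section

namespace Pool.Agent.L5helper93.PI

open Pool.Agent.Results.MP_b296c2_gt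
open Pool.Agent.Results.MP_b296c2_gt.Riemannian
open Pool.Agent.L5helper93.Ein Pool.Agent.L5helper93.Geo

variable {E : Type*} [NormedAddCommGroup E] [NormedSpace ℝ E] [FiniteDimensional ℝ E]
  {H : Type*} [TopologicalSpace H] {I : ModelWithCorners ℝ E H}
  {M : Type*} [TopologicalSpace M] [ChartedSpace H M] [IsManifold I ∞ M]
  [RiemannianBundle (fun x : M => TangentSpace I x)]
  [IsContMDiffRiemannianBundle I ∞ E (fun x : M => TangentSpace I x)]
  [T2Space M] [SigmaCompactSpace M] [Nontrivial E]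
  {cov : CovariantDerivative I E (TangentSpace I : M → Type _)}

/-- The scalar curvature, computed in an orthonormal basis. -/
def scalB (R : CurvField I M) {n : ℕ} {z : M}
    (b : OrthonormalBasis (Fin n) ℝ (TangentSpace I z)) : ℝ :=
  ∑ i, ∑ j, inner ℝ (R z (b i) (b j) (b j)) (b i)

/-- The pointwise statement. -/
theorem pinch_point (h : IsLeviCivita cov) {n : ℕ} (hn : Module.finrank ℝ E = n) (hn2 : 2 ≤ n)
    {R : CurvField I M} (hR : IsRiemannTensor cov R) {θ : BilField I M} (hθ : IsForm θ) (z : M)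
    (hK : ∀ (b : OrthonormalBasis (Fin n) ℝ (TangentSpace I z)) (u v : TangentSpace I z),
      inner ℝ u u = (1 : ℝ) → inner ℝ v v = (1 : ℝ) → inner ℝ u v = (0 : ℝ) →
      scalB R b / ((n : ℝ) * ((n : ℝ) + 2)) ≤ inner ℝ (R z u v v) u) :
    ∃ e : Fin n → Π x : M, TangentSpace I x, Adapted cov z e ∧ 0 ≤ Wz R θ z e ∧
      ((∀ (b : OrthonormalBasis (Fin n) ℝ (TangentSpace I z)) (u v : TangentSpace I z),
        inner ℝ u u = (1 : ℝ) → inner ℝ v v = (1 : ℝ) → inner ℝ u v = (0 : ℝ) →
        scalB R b / ((n : ℝ) * ((n : ℝ) + 2)) < inner ℝ (R z u v v) u) → 3 ≤ n →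
        Wz R θ z e = 0 → ∀ u v, θ z u v = 0) := by
  have hfd : FiniteDimensional ℝ (TangentSpace I z) := inferInstanceAs (FiniteDimensional ℝ E)
  have hct : Pointwise.IsCurvatureTensor (R z) := isCurvatureTensor h hR z
  obtain ⟨m, r, β, v, ε, b, e, hr, hmr, hβ, hv, hw, ha, he, hb⟩ := exists_normal h hn hθ z
  have hev : ∀ a, e (ε a) z = v a := by
    intro a
    rw [he, hb]
  have hm : 1 ≤ m := by omega
  set δ : ℝ := scalB R b / ((n : ℝ) * ((n : ℝ) + 2)) with hδ
  set A : Ix m r → Ix m r → Ix m r → Ix m r → ℝ :=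
    fun a b c d => Af R z e (ε a) (ε b) (ε c) (ε d) with hA
  have hAf : ∀ a b c d, A a b c d = inner ℝ (R z (v a) (v b) (v d)) (v c) := by
    intro a b c d
    rw [hA]
    unfold Af TF RF
    simp only [hev]
  have hcur : IsCurv A := by
    have := Af_curv h hR ha
    exact ⟨fun a b c d => this.a1 _ _ _ _, fun a b c d => this.a2 _ _ _ _,
      fun a b c d => this.bi _ _ _ _⟩
  have hwf : (fun a c => wf θ z e (ε a) (ε c)) = Wn β := by
    ext a c
    unfold wf
    rw [hev, hev, hw]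
  have hone : ∀ a, inner ℝ (v a) (v a) = (1 : ℝ) := fun a => by rw [hv, if_pos rfl]
  have hzero : ∀ a c, a ≠ c → inner ℝ (v a) (v c) = (0 : ℝ) := fun a c hac => by
    rw [hv, if_neg hac]
  have hn0 : (0 : ℝ) < (n : ℝ) * ((n : ℝ) + 2) := by
    have : (2 : ℝ) ≤ n := by exact_mod_cast hn2
    positivity
  have hscal : ∑ a, ∑ c, A a c a c = (2 * m + r : ℝ) * (2 * m + r + 2) * δ := by
    have h1 : ∑ a, ∑ c, A a c a c = scalB R b := by
      unfold scalB
      rw [← Equiv.sum_comp ε]
      refine Finset.sum_congr rfl fun a _ => ?_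
      rw [← Equiv.sum_comp ε]
      refine Finset.sum_congr rfl fun c _ => ?_
      rw [hAf, hb, hb]
    have h2 : (2 * m + r : ℝ) = n := by
      rw [← hmr]
      push_cast
      ring
    rw [h1, h2, hδ]
    field_simp
  have hpair : ∀ i j, i ≠ j → 6 * A (pP i) (pQ i) (pP j) (pQ j) ≤
      4 * (Real.sqrt (A (pP i) (pQ i) (pP i) (pQ i) - δ) *
        Real.sqrt (A (pP j) (pQ j) (pP j) (pQ j) - δ)) + (Sm A i j - 4 * δ) := by
    intro i j hij
    have hne : ∀ i : Fin m, (pP i : Ix m r) ≠ pQ i := by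
      intro i
      simp
    refine pair_sqrt ?_ ?_ ?_
    · rw [hAf]
      have := hK b _ _ (hone (pP i)) (hone (pQ i)) (hzero _ _ (hne i))
      linarith
    · rw [hAf]
      have := hK b _ _ (hone (pP j)) (hone (pQ j)) (hzero _ _ (hne j))
      linarith
    · intro p q
      unfold Sm
      simp only [hAf]
      exact pair_lower (V := TangentSpace I z) hct (fun u w h1 h2 h3 => hK b u w h1 h2 h3)
        (hone _) (hone _) (hone _) (hone _) (hzero _ _ (by simp)) (hzero _ _ (by simpa using hij))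
        (hzero _ _ (by simp)) (hzero _ _ (by simp)) (hzero _ _ (by simpa using hij))
        (hzero _ _ (by simp)) p q
  have hK' : ∀ a c, a ≠ c → δ ≤ A a c a c := by
    intro a c hac
    rw [hAf]
    exact hK b _ _ (hone a) (hone c) (hzero a c hac)
  have hWz : Wz R θ z e = 2 * Pt A (Wn β) - Wt A (Wn β) := by
    rw [Wz_reindex R θ z e ε, hwf]
  obtain ⟨h1, h2⟩ := alg_main hm hr hcur hβ hK' hpair hscal
  refine ⟨e, ha, by rw [hWz]; exact h1, ?_⟩
  intro hs h3 h4 x y
  have hβ0 := h2 (by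
    intro a c hac
    rw [hAf]
    exact hs b _ _ (hone a) (hone c) (hzero a c hac)) (by omega) (by rw [← hWz]; exact h4)
  have hb0 : ∀ i j, θ z (b i) (b j) = 0 := by
    intro i j
    have e1 : b i = v (ε.symm i) := by rw [← hb, Equiv.apply_symm_apply]
    have e2 : b j = v (ε.symm j) := by rw [← hb, Equiv.apply_symm_apply]
    rw [e1, e2, hw]
    have : ∀ a c : Ix m r, Wn β a c = 0 := by
      rintro ((a | a) | a) ((c | c) | c) <;> simp [Wn, hβ0]
    exact this _ _
  have h5 := b.sum_repr x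
  have h6 := b.sum_repr y
  rw [← h5, ← h6]
  simp only [map_sum, map_smul, LinearMap.sum_apply, LinearMap.smul_apply, hb0, smul_zero,
    Finset.sum_const_zero]

/-- The main theorem. -/
theorem pinch_main [BoundarylessManifold I M] [CompactSpace M] [PreconnectedSpace M] {n : ℕ}
    (hn : Module.finrank ℝ E = n) (hn3 : 3 ≤ n) (h : IsLeviCivita cov)
    {R : CurvField I M} (hR : IsRiemannTensor cov R)
    (hK : ∀ (x : M) (b : OrthonormalBasis (Fin n) ℝ (TangentSpace I x)) (u v : TangentSpace I x),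
      inner ℝ u u = (1 : ℝ) → inner ℝ v v = (1 : ℝ) → inner ℝ u v = (0 : ℝ) →
      scalB R b / ((n : ℝ) * ((n : ℝ) + 2)) ≤ inner ℝ (R x u v v) u)
    (p : M) (hp : ∀ (b : OrthonormalBasis (Fin n) ℝ (TangentSpace I p)) (u v : TangentSpace I p),
      inner ℝ u u = (1 : ℝ) → inner ℝ v v = (1 : ℝ) → inner ℝ u v = (0 : ℝ) →
      scalB R b / ((n : ℝ) * ((n : ℝ) + 2)) < inner ℝ (R p u v v) u)
    {θ : BilField I M} (hθ : IsForm θ)
    (hc : ∀ ⦃V X Y : Π x : M, TangentSpace I x⦄, CMDiff ∞ (T% V) → CMDiff ∞ (T% X) →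
      CMDiff ∞ (T% Y) → ∀ x, DO cov θ V X Y x + DO cov θ X Y V x + DO cov θ Y V X x = 0)
    (hd : ∀ (x : M) (e : Fin n → Π x : M, TangentSpace I x), (∀ i, CMDiff ∞ (T% (e i))) →
      (∀ i j, inner ℝ (e i x) (e j x) = if i = j then (1 : ℝ) else 0) →
      ∀ Y : Π x : M, TangentSpace I x, CMDiff ∞ (T% Y) → ∑ i, DO cov θ (e i) (e i) Y x = 0)
    (x : M) (u v : TangentSpace I x) : θ x u v = 0 := by
  obtain ⟨hpar, hconst, hzero⟩ := weitz_main hn h hR hθ hc hd (by
    intro z
    obtain ⟨e, ha, h1, -⟩ := pinch_point h hn (by omega) hR hθ z (hK z)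
    exact ⟨e, ha, h1⟩)
  obtain ⟨e, ha, -, h2⟩ := pinch_point h hn (by omega) hR hθ p (hK p)
  have h3 := h2 hp hn3 (hzero p e ha)
  refine form_zero hn hθ ?_ u v
  rw [hconst x p]
  unfold nO S2
  refine Finset.sum_eq_zero fun i _ => Finset.sum_eq_zero fun j _ => ?_
  rw [h3]
  ring

end Pool.Agent.L5helper93.PI

end
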